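import Mathlib
import Pool.Agent.Results.MP_674062_gt.CounterexampleUnderCH
import Pool.Agent.Helper292.ForceCH

/-!
# MP_674062_gt: Split(Λ,Λ) is consistently not preserved by countable unions

First half: there is a forcing notion all of whose conditions force, over any ground model, that
`ω₁` is preserved and that the continuum hypothesis holds.  Second half: the continuum hypothesis
gives sets of reals `X 0`, `X 1`, ... with Split(Λ,Λ) whose union does not satisfy Split(Λ,Λ).
-/

set_option autoImplicit false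

open Cardinal
open Pool.Agent.Helper292.ForceCH (OmegaOnePreserved CHHolds)

namespace Pool.Agent.Results.MP_674062_gt.ConsistentlyNotAdditive

/-- A large open cover of the set of reals `X`: a family of open subsets of `X`, not containing `X`
itself, such that every point of `X` lies in infinitely many members of the family. -/
def IsLargeCover {X : Set ℝ} (𝒰 : Set (Set X)) : Prop :=
  (∀ U ∈ 𝒰, IsOpen U) ∧ Set.univ ∉ 𝒰 ∧ ∀ x : X, {U ∈ 𝒰 | x ∈ U}.Infinite

/-- The property Split(Λ,Λ) of sets of reals: every large open cover contains two disjoint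
subfamilies, each of which is itself a large open cover. -/
def SplitLL (X : Set ℝ) : Prop :=
  ∀ 𝒰 : Set (Set X), IsLargeCover 𝒰 →
    ∃ 𝒱 𝒲 : Set (Set X), 𝒱 ⊆ 𝒰 ∧ 𝒲 ⊆ 𝒰 ∧ Disjoint 𝒱 𝒲 ∧ IsLargeCover 𝒱 ∧ IsLargeCover 𝒲

/-- Some forcing notion preserves `ω₁` and forces the continuum hypothesis over any ground model;
and under the continuum hypothesis there are sets of reals `X n`, `n ∈ ℕ`, all with Split(Λ,Λ),
whose union fails Split(Λ,Λ) (it is the union of `X 0` and `X 1`). -/
theorem result :
    (∃ (P : Type) (_ : Preorder P), Nonempty P ∧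
      ∀ p : P, p ∈ OmegaOnePreserved P ∧ p ∈ CHHolds P) ∧
    ((ℵ₁ : Cardinal.{0}) = 𝔠 →
      ∃ X : ℕ → Set ℝ, (∀ n, SplitLL (X n)) ∧ ¬ SplitLL (⋃ n, X n) ∧
        (⋃ n, X n) = X 0 ∪ X 1) := by
  refine ⟨?_, fun hCH => ?_⟩
  · obtain ⟨P, hP, hne, h⟩ := Pool.Agent.Helper292.ForceCH.exists_forcing
    exact ⟨P, hP, hne, fun p => ⟨(h p).1, (h p).2.2⟩⟩
  · exact Pool.Agent.Results.MP_674062_gt.CounterexampleUnderCH.result hCH.symm

end Pool.Agent.Results.MP_674062_gt.ConsistentlyNotAdditive
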